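import Pool.Agent.TH592.BF.Mir
import Pool.Agent.TH592.BL.Lin
import Pool.Agent.Y865.SP.Fin
import Pool.Agent.Y865.RF.Fin
import Pool.Agent.X18.BLM.Sum

/-!
# The Birkhoff-Lewis inequality and the minors of minimum degree at least five

The inequality for the smallest class of graphs which contains a graph as soon as it contains all
its minors of minimum degree at least five, and which is closed under unfolding of mirror images, of
kaleidoscopic images, and under clique sums.
-/

set_option autoImplicit false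

namespace Pool.Agent.Results.MP_0d034c_co.MinorsOfMinDegreeFive

open Polynomial Pool.Agent.H207R2.BL Pool.Agent.X18.BLM
open scoped RealInnerProductSpace

/-- `G` can be drawn in the plane with non-crossing arcs. -/
def Planar {V : Type} (G : SimpleGraph V) : Prop :=
  ∃ (f : V → ℝ × ℝ) (γ : V → V → ℝ → ℝ × ℝ), IsDrawing G f γ

/-- `K` is the graph obtained from the part of `G` in the closed upper half plane by identifying
vertices on the `x`-axis according to a noncrossing partition of them, the vertices in one block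
being pairwise not adjacent (as `K` has no loops); `φ` is the quotient map.  (If no vertices are
identified, `K` is this part of `G`.) -/
structure Folding {V W : Type} (G : SimpleGraph V) (f : V → ℝ × ℝ) (K : SimpleGraph W)
    (φ : {v : V // 0 ≤ (f v).2} → W) : Prop where
  surj : Function.Surjective φ
  adj : ∀ a b : W, K.Adj a b ↔ ∃ x y, φ x = a ∧ φ y = b ∧ G.Adj x.1 y.1
  axis : ∀ x y, φ x = φ y → x ≠ y → (f x.1).2 = 0
  noncrossing : ∀ a b c d, (f a.1).2 = 0 → (f b.1).2 = 0 → (f c.1).2 = 0 → (f d.1).2 = 0 →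
    (f a.1).1 < (f b.1).1 → (f b.1).1 < (f c.1).1 → (f c.1).1 < (f d.1).1 →
    φ a = φ c → φ b = φ d → φ a = φ b

/-- Euclidean space of dimension three -/
abbrev E3 : Type := EuclideanSpace ℝ (Fin 3)

/-- the reflection in the plane through the origin with unit normal vector `n` -/
noncomputable def reflect (n x : E3) : E3 := x - (2 * ⟪n, x⟫) • n

/-- A drawing of `G` on the unit sphere: vertices are distinct points, every edge is an arc (an
injective continuous curve) joining its two ends and avoiding all vertices in between, and arcs of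
different edges do not meet in between. -/
structure SphereDrawing {V : Type} (G : SimpleGraph V) (f : V → E3) (γ : V → V → ℝ → E3) :
    Prop where
  vertex : ∀ v, ‖f v‖ = 1
  inj : Function.Injective f
  arc : ∀ u v : V, G.Adj u v →
    ContinuousOn (γ u v) (Set.Icc (0:ℝ) 1) ∧ Set.InjOn (γ u v) (Set.Icc (0:ℝ) 1) ∧
    (∀ t ∈ Set.Icc (0:ℝ) 1, ‖γ u v t‖ = 1) ∧ γ u v 0 = f u ∧ γ u v 1 = f v ∧
    ∀ t ∈ Set.Ioo (0:ℝ) 1, ∀ w : V, γ u v t ≠ f w
  disjoint : ∀ u v u' v' : V, G.Adj u v → G.Adj u' v' → s(u, v) ≠ s(u', v') →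
    ∀ t ∈ Set.Ioo (0:ℝ) 1, ∀ t' ∈ Set.Ioo (0:ℝ) 1, γ u v t ≠ γ u' v' t'

/-- Every edge whose two ends are in the closed half space `⟪n, x⟫ ≥ 0` is drawn there. -/
def HalfDrawn {V : Type} (G : SimpleGraph V) (f : V → E3) (γ : V → V → ℝ → E3) (n : E3) : Prop :=
  ∀ u v, G.Adj u v → 0 ≤ ⟪n, f u⟫ → 0 ≤ ⟪n, f v⟫ → ∀ t ∈ Set.Icc (0 : ℝ) 1, 0 ≤ ⟪n, γ u v t⟫

/-- `G` is drawn on the unit sphere symmetrically with respect to the planes with unit normal
vectors in `M`, where `M` is finite, not empty and closed under the reflections in these planes (so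
these are the mirrors of a finite reflection group; with `n` the set `M` contains `-n`), and no
edge crosses a mirror: no edge joins the two open half spaces of a mirror, and one of the two closed
half spaces is such that all edges with both ends in it are drawn in it. -/
structure Kaleidoscopic {V : Type} (G : SimpleGraph V) (M : Set E3) (f : V → E3)
    (γ : V → V → ℝ → E3) : Prop where
  finite : M.Finite
  nonempty : M.Nonempty
  unit : ∀ n ∈ M, ‖n‖ = 1
  closed : ∀ n ∈ M, ∀ m ∈ M, reflect n m ∈ M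
  drawing : SphereDrawing G f γ
  symmetric : ∀ n ∈ M, ∃ σ : V → V, (∀ v, f (σ v) = reflect n (f v)) ∧
    ∀ u v, G.Adj u v → G.Adj (σ u) (σ v)
  noCross : ∀ n ∈ M, ∀ u v, G.Adj u v → 0 < ⟪n, f u⟫ → 0 ≤ ⟪n, f v⟫
  side : ∀ n ∈ M, HalfDrawn G f γ n ∨ HalfDrawn G f γ (-n)

/-- The vertices in the closed chamber (connected component of the complement of the mirrors,
together with its boundary) which contains the point `c`. -/
def chamber {V : Type} (M : Set E3) (f : V → E3) (c : E3) : Set V :=
  {v | ∀ n ∈ M, 0 < ⟪n, c⟫ → 0 ≤ ⟪n, f v⟫}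

/-- `f` is a drawing of `G` in the plane with straight non-crossing edges: vertices are distinct
points, no vertex lies in the interior of an edge, and the interiors of different edges are
disjoint. -/
def StraightDrawing {V : Type} (G : SimpleGraph V) (f : V → ℝ × ℝ) : Prop :=
  Function.Injective f ∧
  (∀ u v w : V, G.Adj u v → f w ∉ openSegment ℝ (f u) (f v)) ∧
  (∀ u v u' v' : V, G.Adj u v → G.Adj u' v' → s(u, v) ≠ s(u', v') →
    Disjoint (openSegment ℝ (f u) (f v)) (openSegment ℝ (f u') (f v')))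

/-- The set of the neighbours of `c` is the set of the vertices of a closed walk `v1 v2 v3 v4 v1` of
`G` (so it is the vertex set of a 4-cycle, of a path with two edges, or of an edge), with not both of
`v1, v3` and not both of `v2, v4` in `U`. -/
def FourLink {V : Type} (G : SimpleGraph V) (U : Set V) (c : V) : Prop :=
  ∃ v1 v2 v3 v4 : V, G.neighborSet c = {v1, v2, v3, v4} ∧
    G.Adj v1 v2 ∧ G.Adj v2 v3 ∧ G.Adj v3 v4 ∧ G.Adj v4 v1 ∧
    ¬ (v1 ∈ U ∧ v3 ∈ U) ∧ ¬ (v2 ∈ U ∧ v4 ∈ U)

/-- The smallest class of graphs (depending on a real number `q`) with the following properties.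

* `minors`: it contains `G` if it contains all minors of `G` of minimum degree at least five (in
  particular if there are none);
* `few`: it contains every planar graph `K` (and every minor `K` of a planar graph) on `n` vertices
  with `5 - 1/n < q`;
* `mirror`: it contains a plane graph `G` which is symmetric with respect to the `x`-axis, no edge
  crossing the axis, if it contains the part of `G` in the closed upper half plane, or a graph
  obtained from this part by identifying vertices on the axis according to a noncrossing partition;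
* `kaleidoscope`: it contains a graph drawn on the sphere symmetrically with respect to a finite
  reflection group, no edge crossing a mirror, if it contains the part in one closed chamber;
* `bipartite`: it contains the plane graph `G` (drawn with straight edges) if `G` becomes bipartite
  when an independent set `C` and a set `U` are deleted, where the neighbourhoods of the elements of
  `C` are vertex sets of closed walks of length four, and `U` is empty or consists of one vertex on
  the boundary of the convex hull;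
* `sum`: it contains `G` if the vertex set is a union of sets `A` and `B` such that no edge joins
  `A \ B` to `B \ A`, `A ∩ B` is a clique with at most five vertices, and the subgraphs induced on
  `A` and on `B` are in the class. -/
inductive Tame (q : ℝ) : (V : Type) → SimpleGraph V → Prop
  | minors (V : Type) (G : SimpleGraph V)
      (h : ∀ (W : Type) (K : SimpleGraph W), Minor G W K → Nonempty W →
        (∀ w, 5 ≤ (K.neighborSet w).ncard) → Tame q W K) : Tame q V G
  | few (V W : Type) (G : SimpleGraph V) (K : SimpleGraph W) (hG : Planar G) (hK : Minor G W K)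
      (hq : 5 - 1 / (Nat.card W : ℝ) < q) : Tame q W K
  | mirror (V W : Type) (G : SimpleGraph V) (f : V → ℝ × ℝ) (γ : V → V → ℝ → ℝ × ℝ)
      (h : MirrorDrawing G f γ) (K : SimpleGraph W) (φ : {v : V // 0 ≤ (f v).2} → W)
      (hK : Folding G f K φ) (hT : Tame q W K) : Tame q V G
  | kaleidoscope (V : Type) (G : SimpleGraph V) (M : Set E3) (f : V → E3) (γ : V → V → ℝ → E3)
      (h : Kaleidoscopic G M f γ) (c : E3) (hc : ∀ n ∈ M, ⟪n, c⟫ ≠ 0)
      (hT : Tame q (chamber M f c) (G.induce (chamber M f c))) : Tame q V G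
  | bipartite (V : Type) (G : SimpleGraph V) (f : V → ℝ × ℝ) (hf : StraightDrawing G f)
      (ℓ : ℝ × ℝ →ₗ[ℝ] ℝ) (U C : Set V) (hU : ∀ u ∈ U, ∀ v, v ≠ u → ℓ (f u) < ℓ (f v))
      (hUC : Disjoint U C) (hC : ∀ x ∈ C, ∀ y ∈ C, ¬ G.Adj x y) (hlink : ∀ c ∈ C, FourLink G U c)
      (hbip : (G.induce (U ∪ C)ᶜ).Colorable 2) : Tame q V G
  | sum (V : Type) (G : SimpleGraph V) (A B : Set V) (hAB : A ∪ B = Set.univ)
      (hno : ∀ a ∈ A \ B, ∀ b ∈ B \ A, ¬ G.Adj a b) (hcl : G.IsClique (A ∩ B))
      (hc : (A ∩ B).ncard ≤ 5) (hA : Tame q A (G.induce A)) (hB : Tame q B (G.induce B)) :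
      Tame q V G

theorem bip_pos (V : Type) [Fintype V] (G : SimpleGraph V) (f : V → ℝ × ℝ)
    (hf : StraightDrawing G f) (ℓ : ℝ × ℝ →ₗ[ℝ] ℝ) (U C : Set V)
    (hU : ∀ u ∈ U, ∀ v, v ≠ u → ℓ (f u) < ℓ (f v)) (hUC : Disjoint U C)
    (hC : ∀ x ∈ C, ∀ y ∈ C, ¬ G.Adj x y) (hlink : ∀ c ∈ C, FourLink G U c)
    (hbip : (G.induce (U ∪ C)ᶜ).Colorable 2)
    (p : ℝ[X]) (hp : ∀ n : ℕ, p.eval (n : ℝ) = (Nat.card (G.Coloring (Fin n)) : ℝ))
    (q : ℝ) (hq : 4 ≤ q) : 0 < p.eval q := by
  classical
  obtain ⟨col⟩ := hbip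
  have main : ∀ g : V → ℝ × ℝ, StraightDrawing G g →
      (∀ u ∈ U, ∀ v, v ≠ u → (g u).2 < (g v).2) → 0 < p.eval q := by
    intro g hg hlow
    refine Pool.Agent.TH592.BL.cfg_pos (G := G) (f := g) (U := U) (C := C)
      (κ := fun x => if h : x ∈ (U ∪ C)ᶜ then decide (col ⟨x, h⟩ = 0) else false)
      ⟨hg, hlow, fun u hu hu' => Set.disjoint_left.1 hUC hu hu', hC, ?_, ?_⟩ p hp q hq
    · intro c hc
      obtain ⟨v1, v2, v3, v4, hN, h⟩ := hlink c hc
      refine ⟨v1, v2, v3, v4, ?_, h⟩
      intro x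
      rw [← SimpleGraph.mem_neighborSet, hN]
      simp
    · intro x y hxy hxU hxC hyU hyC
      have hx : x ∈ (U ∪ C)ᶜ := fun e => e.elim hxU hxC
      have hy : y ∈ (U ∪ C)ᶜ := fun e => e.elim hyU hyC
      simp only [dif_pos hx, dif_pos hy]
      intro hne
      have hadj : (G.induce (U ∪ C)ᶜ).Adj ⟨x, hx⟩ ⟨y, hy⟩ := by
        rw [SimpleGraph.comap_adj]
        exact hxy
      have h4 : col ⟨x, hx⟩ ≠ col ⟨y, hy⟩ := col.valid hadj
      have h5 : (col ⟨x, hx⟩ = 0) ↔ (col ⟨y, hy⟩ = 0) := decide_eq_decide.1 hne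
      apply h4
      have h6 : ∀ x y : Fin 2, (x = 0 ↔ y = 0) → x = y := by decide
      exact h6 _ _ h5
  by_cases hℓ : ℓ = 0
  · refine main f hf ?_
    intro u hu v hv
    have := hU u hu v hv
    rw [hℓ] at this
    simp at this
  · obtain ⟨L, hL, hL2⟩ := Pool.Agent.TH592.BL.exists_linear ℓ hℓ
    refine main (fun v => L (f v)) (Pool.Agent.TH592.BL.straight_linear hf L hL) ?_
    intro u hu v hv
    rw [hL2, hL2]
    exact hU u hu v hv

theorem fold_pos (V W : Type) [Finite V] (G : SimpleGraph V) (f : V → ℝ × ℝ)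
    (γ : V → V → ℝ → ℝ × ℝ) (h : MirrorDrawing G f γ) (K : SimpleGraph W)
    (φ : {v : V // 0 ≤ (f v).2} → W) (hK : Folding G f K φ) (p r : ℝ[X]) (hp : IsChrom G p)
    (hr : IsChrom K r) (q : ℝ) (hq : 4 ≤ q) (hne : 0 < r.eval q) : 0 < p.eval q := by
  classical
  have hKF : Pool.Agent.TH592.BF.Folding G f K φ := ⟨hK.1, hK.2, hK.3, hK.4⟩
  have : Finite W := Finite.of_surjective φ hK.surj
  have h1 := Pool.Agent.TH592.BF.mirror_fold G f γ h K φ hKF p r hp hr q hq
  have hq0 : (0 : ℝ) < q := by linarith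
  have hpow : 0 < q ^ (Nat.card {w : W // ∃ v, (f v.1).2 = 0 ∧ φ v = w}) := pow_pos hq0 _
  have hsq : 0 < r.eval q ^ 2 := by positivity
  by_contra hcon
  push Not at hcon
  have h5 := mul_nonpos_of_nonneg_of_nonpos hpow.le hcon
  linarith

theorem kal_pos (V : Type) [Finite V] (G : SimpleGraph V) (M : Set E3) (f : V → E3)
    (γ : V → V → ℝ → E3) (h : Kaleidoscopic G M f γ) (c : E3) (hc : ∀ n ∈ M, ⟪n, c⟫ ≠ 0)
    (q : ℝ) (hq : 4 ≤ q) (hne : 0 < (chr (G.induce (chamber M f c))).eval q) :
    0 < (chr G).eval q := by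
  classical
  have hM : Pool.Agent.Y865.SP.Mirrors M := ⟨h.finite, h.unit, h.closed⟩
  have hd : Pool.Agent.Y865.SP.IsDr G f γ :=
    ⟨h.drawing.inj, fun u v huv => by
      obtain ⟨h1, h2, _, h4, h5, h6⟩ := h.drawing.arc u v huv
      exact ⟨h1, h2, h4, h5, h6⟩, h.drawing.disjoint⟩
  have he1 : ∀ u v, G.Adj u v → ∀ t ∈ Set.Icc (0 : ℝ) 1, ‖γ u v t‖ = 1 :=
    fun u v huv => (h.drawing.arc u v huv).2.2.1
  refine Pool.Agent.Y865.SP.sphere_main G M hM h.nonempty f γ hd h.drawing.vertex he1
      h.symmetric h.noCross h.side c hc (Pool.Agent.Y865.SP.inside G (chamber M f c))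
      (fun x y h => h.2.2) (fun u v hu hv huv => ⟨hu, hv, huv⟩) q hq ?_
  rw [Pool.Agent.Y865.SP.chr_inside, eval_mul, eval_pow, eval_X]
  exact mul_ne_zero hne.ne' (pow_ne_zero _ (by linarith))

theorem tame_pos (q : ℝ) (hq : 4 < q) (V : Type) (G : SimpleGraph V) (h : Tame q V G) :
    Finite V → ∀ p : ℝ[X], IsChrom G p → 0 < p.eval q := by
  induction h with
  | minors V G h ih =>
    intro hV p hp
    rw [eq_chr hp]
    exact minors_pos 4 q (by exact_mod_cast hq) G
      (fun W K hK hW hd r hr => ih W K hK hW hd hK.finite r hr)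
  | few V W G K hG hK hlt =>
    intro hW p hp
    obtain ⟨f, γ, h⟩ := hG
    exact (Pool.Agent.Y865.RF.final K
      (hK.closed (𝒞 := fun V G => ¬ Pool.Agent.Y865.RF.WK V G) Pool.Agent.Y865.RF.mc
        (Pool.Agent.Y865.RF.pl V G f γ h)) p hp).1 q hlt
  | mirror V W G f γ h K φ hK hT ih =>
    intro hV p hp
    have hW : Finite W := Finite.of_surjective φ hK.surj
    exact fold_pos V W G f γ h K φ hK p (chr K) hp (chr_spec K) q hq.le
      (ih hW _ (chr_spec K))
  | kaleidoscope V G M f γ h c hc hT ih =>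
    intro hV p hp
    rw [eq_chr hp]
    exact kal_pos V G M f γ h c hc q hq.le (ih inferInstance _ (chr_spec _))
  | bipartite V G f hf ℓ U C hU hUC hC hlink hbip =>
    intro hV p hp
    have : Fintype V := Fintype.ofFinite V
    exact bip_pos V G f hf ℓ U C hU hUC hC hlink hbip p hp q hq.le
  | sum V G A B hAB hno hcl hc hA hB ihA ihB =>
    intro hV p hp
    rw [eq_chr hp]
    exact sum_pos 4 q (by exact_mod_cast hq) G A B hAB hno hcl hc
      (ihA inferInstance _ (chr_spec _)) (ihB inferInstance _ (chr_spec _))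

/-- Let `G` be a finite graph and `p` its chromatic polynomial.  If `q > 4` and `G` belongs to the
class `Tame q`, then `p(q) > 0`.  In particular, if `G` is planar and no minor of `G` of minimum
degree at least five has more than `n` vertices, then `p(q) > 0` for all real `q > 4` with
`q > 5 - 1/n`. -/
theorem result (V : Type) [Finite V] (G : SimpleGraph V) (p : ℝ[X])
    (hp : ∀ k : ℕ, p.eval (k : ℝ) = (Nat.card (G.Coloring (Fin k)) : ℝ)) :
    (∀ q : ℝ, 4 < q → Tame q V G → 0 < p.eval q) ∧
    (∀ n : ℕ, Planar G →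
      (∀ (W : Type) (K : SimpleGraph W), Minor G W K → Nonempty W →
        (∀ w, 5 ≤ (K.neighborSet w).ncard) → Nat.card W ≤ n) →
      ∀ q : ℝ, 4 < q → 5 - 1 / (n : ℝ) < q → 0 < p.eval q) := by
  have h1 : ∀ q : ℝ, 4 < q → Tame q V G → 0 < p.eval q :=
    fun q hq h => tame_pos q hq V G h inferInstance p hp
  refine ⟨h1, ?_⟩
  intro n hG hn q hq hq5
  refine h1 q hq (Tame.minors V G ?_)
  intro W K hK hW hd
  refine Tame.few V W G K hG hK ?_
  have : Finite W := hK.finite
  have h2 : 0 < Nat.card W := Nat.card_pos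
  have h3 : (Nat.card W : ℝ) ≤ n := by exact_mod_cast hn W K hK hW hd
  have h4 : 1 / (n : ℝ) ≤ 1 / (Nat.card W : ℝ) := one_div_le_one_div_of_le (by exact_mod_cast h2) h3
  linarith

end Pool.Agent.Results.MP_0d034c_co.MinorsOfMinDegreeFive
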